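import Pool.Agent.W299.Snp.Main

/-!
A graph with thirteen vertices whose chromatic symmetric function is Schur positive and whose
chromatic symmetric polynomial in three variables does not have a saturated Newton polytope.
-/

set_option autoImplicit false

open MvPolynomial

namespace Pool.Agent.W299.Snp

/-- The vertices. -/
abbrev VV : Type := Fin 4 ⊕ Fin 2 ⊕ Fin 2 ⊕ Fin 5

/-- The class of a vertex. -/
def cls : VV → Fin 4
  | .inl _ => 0
  | .inr (.inl _) => 1
  | .inr (.inr (.inl _)) => 2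
  | .inr (.inr (.inr _)) => 3

/-- The graph: a blow-up of the path with four vertices. -/
def GG : SimpleGraph VV where
  Adj u v := Pad (cls u) (cls v)
  symm := ⟨fun u v h => Or.symm h⟩
  loopless := ⟨fun u h => by rcases h with h | h <;> omega⟩

/-- The chromatic polynomial in `k` variables. -/
noncomputable def XG (k : ℕ) : MvPolynomial ℕ ℤ :=
  ∑ᶠ κ : {κ : VV → Fin k // ∀ u v, GG.Adj u v → κ u ≠ κ v},
    ∏ v, (MvPolynomial.X ((κ.1 v : ℕ)) : MvPolynomial ℕ ℤ)

open Classical in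
lemma XG_eq_sum (k : ℕ) : XG k = ∑ κ ∈ Finset.univ.filter
    (fun κ : VV → Fin k => ∀ u v, Pad (cls u) (cls v) → κ u ≠ κ v),
      ∏ v, (X (κ v).1 : MvPolynomial ℕ ℤ) := by
  unfold XG
  rw [finsum_eq_sum_of_fintype]
  symm
  apply Finset.sum_subtype
  intro κ
  rw [Finset.mem_filter]
  exact ⟨fun h => h.2, fun h => ⟨Finset.mem_univ _, h⟩⟩

lemma prod_cls (f : Fin 4 → MvPolynomial ℕ ℤ) :
    ∏ v, f (cls v) = f 0 ^ 4 * f 1 ^ 2 * f 2 ^ 2 * f 3 ^ 5 := by
  rw [Fintype.prod_sum_type, Fintype.prod_sum_type, Fintype.prod_sum_type]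
  simp only [cls, Finset.prod_const, Finset.card_univ, Fintype.card_fin]
  ring

open Classical in
lemma XG_eq_F (k : ℕ) : XG k = F k 4 2 2 5 := by
  rw [XG_eq_sum, Finset.sum_filter]
  refine (chrom cls k).trans ?_
  unfold F
  apply Finset.sum_congr rfl
  intro τ _
  exact congrArg _ (prod_cls (fun c => sig c τ))

theorem L_nonneg : ((L 4 2 2 5).all fun m => decide (0 ≤ m.2)) = true := by decide +kernel

/-- The Schur coefficients. -/
noncomputable def coe (l : FC) : YoungDiagram →₀ ℕ :=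
  (l.map fun m => Finsupp.single (Y (dec m.1)) m.2.toNat).sum

lemma coe_sum (k : ℕ) (l : FC) (h1 : ∀ m ∈ l, Good (dec m.1)) (h2 : ∀ m ∈ l, 0 ≤ m.2) :
    (coe l).sum (fun μ a => a • S k μ) = ev (fun z => schurL k (dec z)) l := by
  induction l with
  | nil => simp [coe]
  | cons m l ih =>
    have h3 : coe (m :: l) = Finsupp.single (Y (dec m.1)) m.2.toNat + coe l := by simp [coe]
    rw [h3, Finsupp.sum_add_index' (by simp) (by intro a b c; rw [add_smul]),
      ih (fun m' hm' => h1 m' (List.mem_cons_of_mem _ hm'))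
        (fun m' hm' => h2 m' (List.mem_cons_of_mem _ hm')),
      Finsupp.sum_single_index (by simp), ev_cons, S_eq_schurL k (h1 m List.mem_cons_self)]
    congr 1
    have h4 : ((m.2.toNat : ℕ) : ℤ) = m.2 := Int.toNat_of_nonneg (h2 m List.mem_cons_self)
    conv_rhs => rw [← h4]
    rw [nsmul_eq_mul, Int.cast_natCast]

theorem schur_pos (k : ℕ) : ∃ c : YoungDiagram →₀ ℕ, XG k = c.sum (fun μ a => a • S k μ) := by
  refine ⟨coe (L 4 2 2 5), ?_⟩
  rw [coe_sum k _ (fun m hm => (L_spec (by omega) hm).1), XG_eq_F, F_eq k 4 2 2 5 (by omega)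
    (by omega) (by omega) (by omega)]
  intro m hm
  have h := L_nonneg
  rw [List.all_eq_true] at h
  simpa using h m hm

/-- The content of a colouring. -/
noncomputable def cont {k : ℕ} (κ : VV → Fin k) : ℕ →₀ ℕ := ∑ v, Finsupp.single (κ v).1 1

lemma prod_X {k : ℕ} (κ : VV → Fin k) :
    ∏ v, (X (κ v).1 : MvPolynomial ℕ ℤ) = monomial (cont κ) 1 := by
  unfold cont
  rw [MvPolynomial.monomial_sum_one]
  rfl

open Classical in
lemma mem_support (k : ℕ) (β : ℕ →₀ ℕ) : β ∈ (XG k).support ↔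
    ∃ κ : VV → Fin k, (∀ u v, Pad (cls u) (cls v) → κ u ≠ κ v) ∧ cont κ = β := by
  rw [MvPolynomial.mem_support_iff, XG_eq_sum, MvPolynomial.coeff_sum]
  simp only [prod_X, MvPolynomial.coeff_monomial]
  rw [← Finset.sum_filter, Finset.sum_const, nsmul_eq_mul, mul_one, Nat.cast_ne_zero,
    Finset.card_ne_zero]
  constructor
  · rintro ⟨κ, hκ⟩
    simp only [Finset.mem_filter, Finset.mem_univ, true_and] at hκ
    exact ⟨κ, hκ.1, hκ.2⟩
  · rintro ⟨κ, h1, h2⟩
    refine ⟨κ, ?_⟩
    simp only [Finset.mem_filter, Finset.mem_univ, true_and]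
    exact ⟨h1, h2⟩

lemma cont_apply {k : ℕ} (κ : VV → Fin k) (i : ℕ) : cont κ i =
    (∑ x, if (κ (.inl x)).1 = i then 1 else 0) + ((∑ x, if (κ (.inr (.inl x))).1 = i then 1 else 0) +
    ((∑ x, if (κ (.inr (.inr (.inl x)))).1 = i then 1 else 0) +
      ∑ x, if (κ (.inr (.inr (.inr x)))).1 = i then 1 else 0)) := by
  unfold cont
  rw [Finsupp.finsetSum_apply]
  simp only [Finsupp.single_apply]
  rw [Fintype.sum_sum_type, Fintype.sum_sum_type, Fintype.sum_sum_type]

lemma total {n : ℕ} (f : Fin n → Fin 3) : (∑ x, if (f x).1 = 0 then 1 else 0) +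
    (∑ x, if (f x).1 = 1 then 1 else 0) + (∑ x, if (f x).1 = 2 then 1 else 0) = n := by
  rw [← Finset.sum_add_distrib, ← Finset.sum_add_distrib]
  rw [Finset.sum_congr rfl (g := fun _ => 1)]
  · simp
  · intro x _
    have := (f x).2
    have : (f x).1 = 0 ∨ (f x).1 = 1 ∨ (f x).1 = 2 := by omega
    rcases this with h | h | h <;> simp [h]

lemma excl {n m : ℕ} (f : Fin n → Fin 3) (g : Fin m → Fin 3) (h : ∀ x y, f x ≠ g y) (i : ℕ) :
    (∑ x, if (f x).1 = i then 1 else 0) = 0 ∨ (∑ x, if (g x).1 = i then 1 else 0) = 0 := by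
  by_contra hc
  rw [not_or] at hc
  obtain ⟨h1, h2⟩ := hc
  obtain ⟨x, _, hx⟩ := Finset.exists_ne_zero_of_sum_ne_zero h1
  obtain ⟨y, _, hy⟩ := Finset.exists_ne_zero_of_sum_ne_zero h2
  have hx' : (f x).1 = i := by
    by_contra h3
    simp [h3] at hx
  have hy' : (g y).1 = i := by
    by_contra h3
    simp [h3] at hy
  exact h x y (Fin.ext (hx'.trans hy'.symm))

/-- The exponent which is missing. -/
noncomputable def al : ℕ →₀ ℕ := Finsupp.single 0 8 + Finsupp.single 1 4 + Finsupp.single 2 1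

lemma not_mem : al ∉ (XG 3).support := by
  rw [mem_support]
  rintro ⟨κ, h1, h2⟩
  have e0 := cont_apply κ 0
  have e1 := cont_apply κ 1
  have e2 := cont_apply κ 2
  rw [h2] at e0 e1 e2
  have a0 : al 0 = 8 := by simp [al]
  have a1 : al 1 = 4 := by simp [al]
  have a2 : al 2 = 1 := by simp [al]
  rw [a0] at e0
  rw [a1] at e1
  rw [a2] at e2
  have tA := total (fun x => κ (.inl x))
  have tU := total (fun x => κ (.inr (.inl x)))
  have tV := total (fun x => κ (.inr (.inr (.inl x))))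
  have tB := total (fun x => κ (.inr (.inr (.inr x))))
  have xAU := excl (fun x => κ (.inl x)) (fun x => κ (.inr (.inl x)))
    (fun x y => h1 _ _ (by simp [Pad, cls]))
  have xUV := excl (fun x => κ (.inr (.inl x))) (fun x => κ (.inr (.inr (.inl x))))
    (fun x y => h1 _ _ (by simp [Pad, cls]))
  have xVB := excl (fun x => κ (.inr (.inr (.inl x)))) (fun x => κ (.inr (.inr (.inr x))))
    (fun x y => h1 _ _ (by simp [Pad, cls]))
  have := xAU 0
  have := xAU 1
  have := xAU 2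
  have := xUV 0
  have := xUV 1
  have := xUV 2
  have := xVB 0
  have := xVB 1
  have := xVB 2
  omega

/-- First exponent. -/
noncomputable def be : ℕ →₀ ℕ := Finsupp.single 0 9 + Finsupp.single 1 2 + Finsupp.single 2 2

/-- Second exponent. -/
noncomputable def ga : ℕ →₀ ℕ := Finsupp.single 0 7 + Finsupp.single 1 6

/-- First colouring. -/
def kbe (v : VV) : Fin 3 := ![0, 1, 2, 0] (cls v)

/-- Second colouring. -/
def kga (v : VV) : Fin 3 := ![1, 0, 1, 0] (cls v)

lemma be_mem : be ∈ (XG 3).support := by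
  rw [mem_support]
  refine ⟨kbe, ?_, ?_⟩
  · intro u v
    have : ∀ c d : Fin 4, Pad c d → (![0, 1, 2, 0] : Fin 4 → Fin 3) c ≠ ![0, 1, 2, 0] d := by decide
    exact this _ _
  · ext i
    rw [cont_apply]
    simp only [kbe, cls, be, Finsupp.add_apply, Finsupp.single_apply]
    by_cases h0 : i = 0
    · subst h0; simp
    · by_cases h1 : i = 1
      · subst h1; simp
      · by_cases h2 : i = 2
        · subst h2; simp
        · simp [Ne.symm h0, Ne.symm h1, Ne.symm h2]

lemma ga_mem : ga ∈ (XG 3).support := by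
  rw [mem_support]
  refine ⟨kga, ?_, ?_⟩
  · intro u v
    have : ∀ c d : Fin 4, Pad c d → (![1, 0, 1, 0] : Fin 4 → Fin 3) c ≠ ![1, 0, 1, 0] d := by decide
    exact this _ _
  · ext i
    rw [cont_apply]
    simp only [kga, cls, ga, Finsupp.add_apply, Finsupp.single_apply]
    by_cases h0 : i = 0
    · subst h0; simp
    · by_cases h1 : i = 1
      · subst h1; simp
      · simp [Ne.symm h0, Ne.symm h1]

lemma mid : (fun i : ℕ => (al i : ℝ)) ∈ convexHull ℝ
    ((fun β : ℕ →₀ ℕ => (fun i : ℕ => (β i : ℝ))) '' ((XG 3).support : Set (ℕ →₀ ℕ))) := by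
  have h1 : (fun i : ℕ => (be i : ℝ)) ∈ convexHull ℝ
      ((fun β : ℕ →₀ ℕ => (fun i : ℕ => (β i : ℝ))) '' ((XG 3).support : Set (ℕ →₀ ℕ))) :=
    subset_convexHull ℝ _ ⟨be, be_mem, rfl⟩
  have h2 : (fun i : ℕ => (ga i : ℝ)) ∈ convexHull ℝ
      ((fun β : ℕ →₀ ℕ => (fun i : ℕ => (β i : ℝ))) '' ((XG 3).support : Set (ℕ →₀ ℕ))) :=
    subset_convexHull ℝ _ ⟨ga, ga_mem, rfl⟩
  have h3 := (convex_convexHull ℝ ((fun β : ℕ →₀ ℕ => (fun i : ℕ => (β i : ℝ))) ''
    ((XG 3).support : Set (ℕ →₀ ℕ)))) h1 h2 (a := 1 / 2) (b := 1 / 2) (by norm_num) (by norm_num)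
    (by norm_num)
  convert h3 using 1
  funext i
  simp only [al, be, ga, Finsupp.add_apply, Finsupp.single_apply, Pi.add_apply, Pi.smul_apply,
    smul_eq_mul]
  by_cases h0 : i = 0
  · subst h0; norm_num
  · by_cases h1 : i = 1
    · subst h1; norm_num
    · by_cases h2 : i = 2
      · subst h2; norm_num
      · simp [Ne.symm h0, Ne.symm h1, Ne.symm h2]

end Pool.Agent.W299.Snp
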