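import Pool.Agent.W299.Snp.Check

set_option autoImplicit false
set_option maxRecDepth 100000

namespace Pool.Agent.W299.Snp

theorem chk_4 : ((List.range 3).all fun p => (List.range 3).all fun q => (List.range 6).all fun b =>
    chk 4 p q b) = true := by decide +kernel

end Pool.Agent.W299.Snp
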