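import Mathlib

/-!
The chromatic symmetric polynomial of a blow-up of the path with four vertices by independent
sets, and its recursion in the number of variables.
-/

set_option autoImplicit false

open MvPolynomial

namespace Pool.Agent.W299.Snp

/-- Adjacency of the path with four vertices. -/
def Pad (c d : Fin 4) : Prop := c.1 + 1 = d.1 ∨ d.1 + 1 = c.1

instance : DecidableRel Pad := fun _ _ => inferInstanceAs (Decidable (_ ∨ _))

/-- Signs. -/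
def sg : Fin 5 → ℤ := ![1, 1, 1, -1, -1]

/-- Indicators. -/
def ep : Fin 4 → Fin 5 → ℤ := ![![1, 1, 0, 1, 0], ![0, 0, 1, 0, 0], ![1, 0, 0, 0, 0], ![0, 1, 1, 0, 1]]

lemma ep_sq (c : Fin 4) (t : Fin 5) : ep c t * ep c t = ep c t := by
  revert c t
  decide

lemma ind : ∀ T : Finset (Fin 4), ∑ t, sg t * ∏ c ∈ T, ep c t =
    if (∀ c ∈ T, ∀ d ∈ T, ¬ Pad c d) then 1 else 0 := by
  decide

lemma ep_prod {T : Finset (Fin 4)} {c : Fin 4} (h : c ∈ T) (t : Fin 5) :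
    ep c t * ∏ d ∈ T, ep d t = ∏ d ∈ T, ep d t := by
  rw [← Finset.mul_prod_erase T (fun d => ep d t) h, ← mul_assoc, ep_sq]

lemma prod_image_cls {V : Type*} [DecidableEq V] (cls : V → Fin 4) (s : Finset V) (t : Fin 5) :
    ∏ v ∈ s, ep (cls v) t = ∏ c ∈ s.image cls, ep c t := by
  induction s using Finset.induction_on with
  | empty => simp
  | insert v s hv ih =>
    rw [Finset.prod_insert hv, ih, Finset.image_insert]
    by_cases h : cls v ∈ s.image cls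
    · rw [Finset.insert_eq_of_mem h, ep_prod h]
    · rw [Finset.prod_insert h]

lemma ind' {V : Type*} [DecidableEq V] (cls : V → Fin 4) (s : Finset V) :
    ∑ t, sg t * ∏ v ∈ s, ep (cls v) t =
      if (∀ u ∈ s, ∀ v ∈ s, ¬ Pad (cls u) (cls v)) then 1 else 0 := by
  rw [Finset.sum_congr rfl (fun t _ => by rw [prod_image_cls]), ind]
  congr 1
  simp only [Finset.mem_image, forall_exists_index, and_imp, forall_apply_eq_imp_iff₂]

lemma proper_ind {V : Type*} [DecidableEq V] [Fintype V] (cls : V → Fin 4) {k : ℕ}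
    (κ : V → Fin k) [Decidable (∀ u v, Pad (cls u) (cls v) → κ u ≠ κ v)] :
    ∑ τ : Fin k → Fin 5, (∏ i, sg (τ i)) * ∏ v, ep (cls v) (τ (κ v)) =
      if (∀ u v, Pad (cls u) (cls v) → κ u ≠ κ v) then 1 else 0 := by
  have h1 : ∀ τ : Fin k → Fin 5, (∏ i, sg (τ i)) * ∏ v, ep (cls v) (τ (κ v)) =
      ∏ i, (sg (τ i) * ∏ v ∈ Finset.univ.filter (fun v => κ v = i), ep (cls v) (τ i)) := by
    intro τ
    rw [Finset.prod_mul_distrib]
    congr 1
    rw [← Finset.prod_fiberwise (s := Finset.univ) (g := κ)]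
    apply Finset.prod_congr rfl
    intro i _
    apply Finset.prod_congr rfl
    intro v hv
    rw [Finset.mem_filter] at hv
    rw [hv.2]
  simp only [h1]
  have h2 := Finset.prod_univ_sum (fun _ : Fin k => (Finset.univ : Finset (Fin 5)))
    (fun i t => sg t * ∏ v ∈ Finset.univ.filter (fun v => κ v = i), ep (cls v) t)
  rw [Fintype.piFinset_univ] at h2
  rw [← h2]
  simp only [ind']
  split_ifs with h
  · apply Finset.prod_eq_one
    intro i _
    rw [if_pos]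
    intro u hu v hv huv
    rw [Finset.mem_filter] at hu hv
    exact h u v huv (by rw [hu.2, hv.2])
  · push Not at h
    obtain ⟨u, v, huv, hk⟩ := h
    apply Finset.prod_eq_zero (Finset.mem_univ (κ u))
    rw [if_neg]
    intro h
    exact h u (by simp) v (by simp [hk]) huv

/-- The sum of the variables whose type contains the class `c`. -/
noncomputable def sig {k : ℕ} (c : Fin 4) (τ : Fin k → Fin 5) : MvPolynomial ℕ ℤ :=
  ∑ i, ((ep c (τ i) : ℤ) : MvPolynomial ℕ ℤ) * X i.1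

theorem chrom {V : Type*} [DecidableEq V] [Fintype V] (cls : V → Fin 4) (k : ℕ)
    [∀ κ : V → Fin k, Decidable (∀ u v, Pad (cls u) (cls v) → κ u ≠ κ v)] :
    (∑ κ : V → Fin k, if (∀ u v, Pad (cls u) (cls v) → κ u ≠ κ v) then
      ∏ v, (X (κ v).1 : MvPolynomial ℕ ℤ) else 0) =
    ∑ τ : Fin k → Fin 5, (∏ i, ((sg (τ i) : ℤ) : MvPolynomial ℕ ℤ)) * ∏ v, sig (cls v) τ := by
  have h1 : ∀ τ : Fin k → Fin 5, ∏ v, sig (cls v) τ =
      ∑ κ : V → Fin k, ∏ v, (((ep (cls v) (τ (κ v)) : ℤ) : MvPolynomial ℕ ℤ) * X (κ v).1) := by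
    intro τ
    have h2 := Finset.prod_univ_sum (fun _ : V => (Finset.univ : Finset (Fin k)))
      (fun v i => ((ep (cls v) (τ i) : ℤ) : MvPolynomial ℕ ℤ) * X i.1)
    rw [Fintype.piFinset_univ] at h2
    exact h2
  simp only [h1, Finset.mul_sum]
  rw [Finset.sum_comm]
  apply Finset.sum_congr rfl
  intro κ _
  have h3 : ∀ τ : Fin k → Fin 5, (∏ i, ((sg (τ i) : ℤ) : MvPolynomial ℕ ℤ)) *
      ∏ v, (((ep (cls v) (τ (κ v)) : ℤ) : MvPolynomial ℕ ℤ) * X (κ v).1) =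
      (((∏ i, sg (τ i)) * ∏ v, ep (cls v) (τ (κ v)) : ℤ) : MvPolynomial ℕ ℤ) *
        ∏ v, X (κ v).1 := by
    intro τ
    rw [Finset.prod_mul_distrib]
    push_cast
    ring
  simp only [h3]
  rw [← Finset.sum_mul, ← Int.cast_sum, proper_ind]
  split_ifs <;> simp

/-- The chromatic symmetric polynomial of the blow-up. -/
noncomputable def F (k a p q b : ℕ) : MvPolynomial ℕ ℤ :=
  ∑ τ : Fin k → Fin 5, (∏ i, ((sg (τ i) : ℤ) : MvPolynomial ℕ ℤ)) *
    (sig 0 τ ^ a * sig 1 τ ^ p * sig 2 τ ^ q * sig 3 τ ^ b)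

lemma F_zero (a p q b : ℕ) : F 0 a p q b = if a + p + q + b = 0 then 1 else 0 := by
  unfold F
  rw [Fintype.sum_unique]
  simp only [sig, Finset.univ_eq_empty, Finset.prod_empty, Finset.sum_empty, one_mul]
  split_ifs with h
  · have h1 : a = 0 := by omega
    have h2 : p = 0 := by omega
    have h3 : q = 0 := by omega
    have h4 : b = 0 := by omega
    subst h1 h2 h3 h4
    simp
  · have : a ≠ 0 ∨ p ≠ 0 ∨ q ≠ 0 ∨ b ≠ 0 := by omega
    rcases this with h | h | h | h <;> simp [zero_pow h]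

lemma sig_snoc {k : ℕ} (c : Fin 4) (τ : Fin k → Fin 5) (t : Fin 5) :
    sig c (Fin.snoc τ t : Fin (k + 1) → Fin 5) = sig c τ + ((ep c t : ℤ) : MvPolynomial ℕ ℤ) * X k := by
  unfold sig
  rw [Fin.sum_univ_castSucc]
  simp

lemma sum_snoc {k : ℕ} (G : (Fin (k + 1) → Fin 5) → MvPolynomial ℕ ℤ) :
    ∑ τ, G τ = ∑ t : Fin 5, ∑ τ : Fin k → Fin 5, G (Fin.snoc τ t) := by
  rw [← (Fin.snocEquiv (fun _ => Fin 5)).sum_comp, Fintype.sum_prod_type]
  rfl

lemma pow_expand (x y : MvPolynomial ℕ ℤ) (n : ℕ) :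
    (y + x) ^ n = ∑ m ∈ Finset.range (n + 1), ((n.choose m : ℕ) : MvPolynomial ℕ ℤ) *
      (x ^ m * y ^ (n - m)) := by
  rw [add_comm, add_pow]
  apply Finset.sum_congr rfl
  intro m _
  ring

lemma pow_expand' (x y : MvPolynomial ℕ ℤ) (n : ℕ) :
    (y + x) ^ n - y ^ n = ∑ m ∈ Finset.range n, ((n.choose (m + 1) : ℕ) : MvPolynomial ℕ ℤ) *
      (x ^ (m + 1) * y ^ (n - (m + 1))) := by
  rw [pow_expand, Finset.sum_range_succ']
  simp

theorem F_succ (k a p q b : ℕ) : F (k + 1) a p q b =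
    (∑ i ∈ Finset.range (a + 1), ∑ j ∈ Finset.range (q + 1),
      ((a.choose i * q.choose j : ℕ) : MvPolynomial ℕ ℤ) *
        (X k ^ (i + j) * F k (a - i) p (q - j) b)) +
    (∑ i ∈ Finset.range (a + 1), ∑ j ∈ Finset.range b,
      ((a.choose i * b.choose (j + 1) : ℕ) : MvPolynomial ℕ ℤ) *
        (X k ^ (i + (j + 1)) * F k (a - i) p q (b - (j + 1)))) +
    (∑ i ∈ Finset.range p, ∑ j ∈ Finset.range (b + 1),
      ((p.choose (i + 1) * b.choose j : ℕ) : MvPolynomial ℕ ℤ) *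
        (X k ^ ((i + 1) + j) * F k a (p - (i + 1)) q (b - j))) := by
  have key : ∀ s y0 y1 y2 y3 x : MvPolynomial ℕ ℤ,
      s * ((y0 + x) ^ a * y1 ^ p * (y2 + x) ^ q * y3 ^ b) +
      s * ((y0 + x) ^ a * y1 ^ p * y2 ^ q * (y3 + x) ^ b) +
      s * (y0 ^ a * (y1 + x) ^ p * y2 ^ q * (y3 + x) ^ b) -
      s * ((y0 + x) ^ a * y1 ^ p * y2 ^ q * y3 ^ b) -
      s * (y0 ^ a * y1 ^ p * y2 ^ q * (y3 + x) ^ b) =
      (∑ i ∈ Finset.range (a + 1), ∑ j ∈ Finset.range (q + 1),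
        ((a.choose i * q.choose j : ℕ) : MvPolynomial ℕ ℤ) *
          (x ^ (i + j) * (s * (y0 ^ (a - i) * y1 ^ p * y2 ^ (q - j) * y3 ^ b)))) +
      (∑ i ∈ Finset.range (a + 1), ∑ j ∈ Finset.range b,
        ((a.choose i * b.choose (j + 1) : ℕ) : MvPolynomial ℕ ℤ) *
          (x ^ (i + (j + 1)) * (s * (y0 ^ (a - i) * y1 ^ p * y2 ^ q * y3 ^ (b - (j + 1)))))) +
      (∑ i ∈ Finset.range p, ∑ j ∈ Finset.range (b + 1),
        ((p.choose (i + 1) * b.choose j : ℕ) : MvPolynomial ℕ ℤ) *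
          (x ^ ((i + 1) + j) * (s * (y0 ^ a * y1 ^ (p - (i + 1)) * y2 ^ q * y3 ^ (b - j))))) := by
    intro s y0 y1 y2 y3 x
    have e1 : ∀ (n m : ℕ) (f g : ℕ → MvPolynomial ℕ ℤ) (z : MvPolynomial ℕ ℤ),
        ∑ i ∈ Finset.range n, ∑ j ∈ Finset.range m, f i * g j * z =
          (∑ i ∈ Finset.range n, f i) * (∑ j ∈ Finset.range m, g j) * z := by
      intro n m f g z
      rw [Finset.sum_mul_sum, Finset.sum_mul]
      simp only [Finset.sum_mul]
    have a1 := e1 (a + 1) (q + 1)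
      (fun i => ((a.choose i : ℕ) : MvPolynomial ℕ ℤ) * (x ^ i * y0 ^ (a - i)))
      (fun j => ((q.choose j : ℕ) : MvPolynomial ℕ ℤ) * (x ^ j * y2 ^ (q - j))) (s * y1 ^ p * y3 ^ b)
    have a2 := e1 (a + 1) b
      (fun i => ((a.choose i : ℕ) : MvPolynomial ℕ ℤ) * (x ^ i * y0 ^ (a - i)))
      (fun j => ((b.choose (j + 1) : ℕ) : MvPolynomial ℕ ℤ) * (x ^ (j + 1) * y3 ^ (b - (j + 1))))
      (s * y1 ^ p * y2 ^ q)
    have a3 := e1 p (b + 1)
      (fun i => ((p.choose (i + 1) : ℕ) : MvPolynomial ℕ ℤ) * (x ^ (i + 1) * y1 ^ (p - (i + 1))))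
      (fun j => ((b.choose j : ℕ) : MvPolynomial ℕ ℤ) * (x ^ j * y3 ^ (b - j)))
      (s * y0 ^ a * y2 ^ q)
    rw [← pow_expand, ← pow_expand] at a1
    rw [← pow_expand, ← pow_expand'] at a2
    rw [← pow_expand', ← pow_expand] at a3
    have b1 : ∀ i j : ℕ, ((a.choose i * q.choose j : ℕ) : MvPolynomial ℕ ℤ) *
          (x ^ (i + j) * (s * (y0 ^ (a - i) * y1 ^ p * y2 ^ (q - j) * y3 ^ b))) =
        ((a.choose i : ℕ) : MvPolynomial ℕ ℤ) * (x ^ i * y0 ^ (a - i)) *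
        (((q.choose j : ℕ) : MvPolynomial ℕ ℤ) * (x ^ j * y2 ^ (q - j))) * (s * y1 ^ p * y3 ^ b) := by
      intro i j
      push_cast
      ring
    have b2 : ∀ i j : ℕ, ((a.choose i * b.choose (j + 1) : ℕ) : MvPolynomial ℕ ℤ) *
          (x ^ (i + (j + 1)) * (s * (y0 ^ (a - i) * y1 ^ p * y2 ^ q * y3 ^ (b - (j + 1))))) =
        ((a.choose i : ℕ) : MvPolynomial ℕ ℤ) * (x ^ i * y0 ^ (a - i)) *
        (((b.choose (j + 1) : ℕ) : MvPolynomial ℕ ℤ) * (x ^ (j + 1) * y3 ^ (b - (j + 1)))) *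
        (s * y1 ^ p * y2 ^ q) := by
      intro i j
      push_cast
      ring
    have b3 : ∀ i j : ℕ, ((p.choose (i + 1) * b.choose j : ℕ) : MvPolynomial ℕ ℤ) *
          (x ^ ((i + 1) + j) * (s * (y0 ^ a * y1 ^ (p - (i + 1)) * y2 ^ q * y3 ^ (b - j)))) =
        ((p.choose (i + 1) : ℕ) : MvPolynomial ℕ ℤ) * (x ^ (i + 1) * y1 ^ (p - (i + 1))) *
        (((b.choose j : ℕ) : MvPolynomial ℕ ℤ) * (x ^ j * y3 ^ (b - j))) *
        (s * y0 ^ a * y2 ^ q) := by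
      intro i j
      push_cast
      ring
    simp only [b1, b2, b3]
    rw [a1, a2, a3]
    ring
  unfold F
  rw [sum_snoc]
  simp only [sig_snoc, Fin.prod_univ_castSucc, Fin.snoc_castSucc, Fin.snoc_last]
  rw [Fin.sum_univ_five]
  have c : sg 0 = 1 ∧ sg 1 = 1 ∧ sg 2 = 1 ∧ sg 3 = -1 ∧ sg 4 = -1 := by decide
  obtain ⟨c0, c1, c2, c3, c4⟩ := c
  have d0 : ep 0 0 = 1 ∧ ep 0 1 = 1 ∧ ep 0 2 = 0 ∧ ep 0 3 = 1 ∧ ep 0 4 = 0 := by decide
  have d1 : ep 1 0 = 0 ∧ ep 1 1 = 0 ∧ ep 1 2 = 1 ∧ ep 1 3 = 0 ∧ ep 1 4 = 0 := by decide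
  have d2 : ep 2 0 = 1 ∧ ep 2 1 = 0 ∧ ep 2 2 = 0 ∧ ep 2 3 = 0 ∧ ep 2 4 = 0 := by decide
  have d3 : ep 3 0 = 0 ∧ ep 3 1 = 1 ∧ ep 3 2 = 1 ∧ ep 3 3 = 0 ∧ ep 3 4 = 1 := by decide
  simp only [c0, c1, c2, c3, c4, d0.1, d0.2.1, d0.2.2.1, d0.2.2.2.1, d0.2.2.2.2,
    d1.1, d1.2.1, d1.2.2.1, d1.2.2.2.1, d1.2.2.2.2,
    d2.1, d2.2.1, d2.2.2.1, d2.2.2.2.1, d2.2.2.2.2,
    d3.1, d3.2.1, d3.2.2.1, d3.2.2.2.1, d3.2.2.2.2,
    Int.cast_one, Int.cast_zero, Int.cast_neg, one_mul, zero_mul, add_zero, mul_one, mul_neg,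
    neg_mul]
  rw [← Finset.sum_add_distrib, ← Finset.sum_add_distrib, ← Finset.sum_add_distrib,
    ← Finset.sum_add_distrib]
  simp only [← sub_eq_add_neg]
  refine (Finset.sum_congr rfl (fun τ _ => key _ _ _ _ _ _)).trans ?_
  rw [Finset.sum_add_distrib, Finset.sum_add_distrib]
  simp only [Finset.mul_sum]
  congr 1
  · congr 1
    · rw [Finset.sum_comm]
      apply Finset.sum_congr rfl
      intro i _
      rw [Finset.sum_comm]
    · rw [Finset.sum_comm]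
      apply Finset.sum_congr rfl
      intro i _
      rw [Finset.sum_comm]
  · rw [Finset.sum_comm]
    apply Finset.sum_congr rfl
    intro i _
    rw [Finset.sum_comm]

end Pool.Agent.W299.Snp
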