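import Pool.Agent.W299.Snp.YD
import Pool.Agent.W299.Snp.Check

/-!
Schur polynomials of Young diagrams given by the lists of their row lengths.
-/

set_option autoImplicit false

open MvPolynomial

namespace Pool.Agent.W299.Snp

/-- Weakly decreasing lists of positive numbers. -/
def Good (l : List ℕ) : Prop := l.SortedGE ∧ ∀ x ∈ l, 0 < x

lemma good_nil : Good [] := by
  constructor
  · exact List.Pairwise.sortedGE (by simp)
  · simp

lemma good_cons_cons (a b : ℕ) (t : List ℕ) : Good (a :: b :: t) ↔ b ≤ a ∧ Good (b :: t) := by
  unfold Good
  constructor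
  · rintro ⟨h1, h2⟩
    have h3 := h1.pairwise
    rw [List.pairwise_cons] at h3
    refine ⟨h3.1 b (by simp), h3.2.sortedGE, fun x hx => h2 x (by simp at hx ⊢; tauto)⟩
  · rintro ⟨h1, h2, h3⟩
    have h4 := h2.pairwise
    refine ⟨List.Pairwise.sortedGE ?_, ?_⟩
    · rw [List.pairwise_cons]
      refine ⟨?_, h4⟩
      intro x hx
      rw [List.pairwise_cons] at h4
      simp only [List.mem_cons] at hx
      rcases hx with rfl | hx
      · exact h1
      · exact le_trans (h4.1 x hx) h1
    · intro x hx
      simp only [List.mem_cons] at hx
      rcases hx with rfl | hx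
      · exact lt_of_lt_of_le (h3 b (by simp)) h1
      · exact h3 x (by simpa using hx)

lemma good_singleton (a : ℕ) : Good [a] ↔ 0 < a := by
  unfold Good
  constructor
  · intro h
    exact h.2 a (by simp)
  · intro h
    refine ⟨List.Pairwise.sortedGE (by simp), by simpa using h⟩

/-- The relation of horizontal strips on lists. -/
def IS (l m : List ℕ) : Prop := ∀ i, l.getD (i + 1) 0 ≤ m.getD i 0 ∧ m.getD i 0 ≤ l.getD i 0

lemma is_cons (a b : ℕ) (l m : List ℕ) : IS (a :: l) (b :: m) ↔
    (l.getD 0 0 ≤ b ∧ b ≤ a) ∧ IS l m := by
  unfold IS
  constructor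
  · intro h
    refine ⟨by simpa using h 0, fun i => by simpa using h (i + 1)⟩
  · rintro ⟨h1, h2⟩ i
    cases i with
    | zero => simpa using h1
    | succ i => simpa using h2 i

lemma mem_strips (l : List ℕ) (hl : Good l) (m : List ℕ) : m ∈ strips l ↔ Good m ∧ IS l m := by
  induction l generalizing m with
  | nil =>
    simp only [strips, List.mem_singleton]
    constructor
    · rintro rfl
      exact ⟨good_nil, fun i => by simp⟩
    · rintro ⟨h1, h2⟩
      cases m with
      | nil => rfl
      | cons a m =>
        have h3 := (h2 0).2
        have h4 := h1.2 a (by simp)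
        simp at h3
        omega
  | cons a l ih =>
    cases l with
    | nil =>
      simp only [strips, List.mem_cons, List.mem_map, List.mem_range]
      rw [good_singleton] at hl
      constructor
      · rintro (rfl | ⟨x, hx, rfl⟩)
        · refine ⟨good_nil, fun i => ?_⟩
          cases i <;> simp
        · refine ⟨(good_singleton _).2 (by omega), fun i => ?_⟩
          cases i with
          | zero => simp; omega
          | succ i => simp
      · rintro ⟨h1, h2⟩
        cases m with
        | nil => left; rfl
        | cons b m =>
          right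
          have h3 := (h2 0).2
          have h4 := h1.2 b (by simp)
          simp at h3
          refine ⟨b - 1, by omega, ?_⟩
          have h5 : b - 1 + 1 = b := by omega
          rw [h5]
          congr 1
          cases m with
          | nil => rfl
          | cons c m =>
            have h6 := (h2 1).2
            have h7 := h1.2 c (by simp)
            simp at h6
            omega
    | cons b t =>
      rw [good_cons_cons] at hl
      simp only [strips, List.mem_flatMap, List.mem_map, List.mem_range]
      constructor
      · rintro ⟨m', hm', x, hx, rfl⟩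
        rw [ih hl.2] at hm'
        obtain ⟨h1, h2⟩ := hm'
        have hb := hl.2.2 b (by simp)
        refine ⟨?_, ?_⟩
        · cases m' with
          | nil => rw [good_singleton]; omega
          | cons c m'' =>
            rw [good_cons_cons]
            refine ⟨?_, h1⟩
            have := (h2 0).2
            simp at this
            omega
        · rw [is_cons]
          refine ⟨⟨by simp, by omega⟩, h2⟩
      · rintro ⟨h1, h2⟩
        cases m with
        | nil =>
          have h3 := (h2 0).1
          have hb := hl.2.2 b (by simp)
          simp at h3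
          omega
        | cons c m' =>
          rw [is_cons] at h2
          obtain ⟨⟨h3, h4⟩, h5⟩ := h2
          simp at h3
          refine ⟨m', ?_, c - b, by omega, ?_⟩
          · rw [ih hl.2]
            refine ⟨?_, h5⟩
            cases m' with
            | nil => exact good_nil
            | cons d m'' => exact ((good_cons_cons _ _ _).1 h1).2
          · congr 1
            omega

lemma nodup_strips (l : List ℕ) : (strips l).Nodup := by
  induction l with
  | nil => simp [strips]
  | cons a l ih =>
    cases l with
    | nil =>
      simp only [strips]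
      rw [List.nodup_cons]
      constructor
      · simp
      · apply List.Nodup.map _ List.nodup_range
        intro x y h
        simpa using h
    | cons b t =>
      simp only [strips]
      rw [List.nodup_flatMap]
      constructor
      · intro m _
        apply List.Nodup.map _ List.nodup_range
        intro x y h
        simpa using h
      · apply ih.imp
        intro m m' hmm
        rw [Function.onFun, List.disjoint_left]
        intro v hv hv'
        rw [List.mem_map] at hv hv'
        obtain ⟨x, _, rfl⟩ := hv
        obtain ⟨y, _, hy⟩ := hv'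
        rw [List.cons.injEq] at hy
        exact hmm hy.2.symm

open Classical in
/-- The Young diagram with given row lengths. -/
noncomputable def Y (l : List ℕ) : YoungDiagram :=
  if h : l.SortedGE then YoungDiagram.ofRowLens l h else ⊥

lemma Y_good {l : List ℕ} (h : Good l) : Y l = YoungDiagram.ofRowLens l h.1 := by
  unfold Y
  rw [dif_pos h.1]

lemma rowLens_Y {l : List ℕ} (h : Good l) : (Y l).rowLens = l := by
  rw [Y_good h]
  exact YoungDiagram.rowLens_ofRowLens_eq_self h.2

lemma good_rowLens (μ : YoungDiagram) : Good μ.rowLens :=
  ⟨μ.rowLens_sorted, μ.pos_of_mem_rowLens⟩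

lemma Y_rowLens (μ : YoungDiagram) : Y μ.rowLens = μ := by
  rw [Y_good (good_rowLens μ)]
  exact YoungDiagram.ofRowLens_to_rowLens_eq_self

lemma rowLen_getD (μ : YoungDiagram) (i : ℕ) : μ.rowLen i = μ.rowLens.getD i 0 := by
  by_cases h : i < μ.rowLens.length
  · rw [List.getD_eq_getElem _ _ h]
    exact YoungDiagram.get_rowLens.symm
  · rw [List.getD_eq_default _ _ (not_lt.1 h)]
    rw [YoungDiagram.length_rowLens, not_lt] at h
    by_contra h2
    have h3 : (i, 0) ∈ μ := YoungDiagram.mem_iff_lt_rowLen.2 (Nat.pos_of_ne_zero h2)
    rw [YoungDiagram.mem_iff_lt_colLen] at h3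
    omega

lemma isStrip_iff (μ ν : YoungDiagram) : IsStrip μ ν ↔ IS μ.rowLens ν.rowLens := by
  unfold IsStrip IS
  simp only [rowLen_getD]

lemma card_cellsOfRowLens (l : List ℕ) : (YoungDiagram.cellsOfRowLens l).card = l.sum := by
  induction l with
  | nil => rfl
  | cons a l ih =>
    rw [YoungDiagram.cellsOfRowLens, Finset.card_union_of_disjoint]
    · rw [Finset.card_map, ih]
      simp
    · rw [Finset.disjoint_left]
      rintro ⟨i, j⟩ h1 h2
      simp only [Finset.mem_product, Finset.mem_singleton] at h1
      rw [Finset.mem_map] at h2
      obtain ⟨⟨i', j'⟩, _, h3⟩ := h2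
      simp at h3
      omega

lemma card_Y {l : List ℕ} (h : Good l) : (Y l).card = l.sum := by
  rw [Y_good h]
  exact card_cellsOfRowLens l

/-- The Schur polynomial, on lists. -/
noncomputable def schurL : ℕ → List ℕ → MvPolynomial ℕ ℤ
  | 0, l => if l = [] then 1 else 0
  | k + 1, l => ((strips l).map fun v => X k ^ (l.sum - v.sum) * schurL k v).sum

lemma Y_eq_bot {l : List ℕ} (h : Good l) : Y l = ⊥ ↔ l = [] := by
  constructor
  · intro h1
    have h2 := card_Y h
    rw [h1] at h2
    cases l with
    | nil => rfl
    | cons a l =>
      have h3 := h.2 a (by simp)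
      have h4 : (⊥ : YoungDiagram).card = 0 := rfl
      rw [h4, List.sum_cons] at h2
      omega
  · rintro rfl
    rw [Y_good h]
    rfl

lemma finsum_strips {M : Type*} [AddCommMonoid M] {l : List ℕ} (h : Good l)
    (f : YoungDiagram → M) :
    ∑ᶠ ν : {ν // IsStrip (Y l) ν}, f ν.1 = ((strips l).map fun v => f (Y v)).sum := by
  classical
  have : Fintype {ν // IsStrip (Y l) ν} := Fintype.ofFinite _
  rw [finsum_eq_sum_of_fintype, ← List.sum_toFinset _ (nodup_strips l)]
  symm
  refine Finset.sum_bij' (fun v hv => (⟨Y v, ?_⟩ : {ν // IsStrip (Y l) ν}))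
    (fun ν _ => ν.1.rowLens) ?_ ?_ ?_ ?_ ?_
  · rw [List.mem_toFinset, mem_strips l h] at hv
    rw [isStrip_iff, rowLens_Y h, rowLens_Y hv.1]
    exact hv.2
  · intro v hv
    exact Finset.mem_univ _
  · intro ν _
    rw [List.mem_toFinset, mem_strips l h]
    refine ⟨good_rowLens _, ?_⟩
    have := ν.2
    rw [isStrip_iff, rowLens_Y h] at this
    exact this
  · intro v hv
    rw [List.mem_toFinset, mem_strips l h] at hv
    exact rowLens_Y hv.1
  · intro ν _
    exact Subtype.ext (Y_rowLens _)
  · intro v hv
    rfl

theorem S_eq_schurL (k : ℕ) {l : List ℕ} (h : Good l) : S k (Y l) = schurL k l := by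
  induction k generalizing l with
  | zero =>
    rw [schurL]
    split_ifs with h1
    · rw [(Y_eq_bot h).2 h1, S_zero_bot]
    · exact S_zero_of_ne (fun h2 => h1 ((Y_eq_bot h).1 h2))
  | succ k ih =>
    rw [S_succ, schurL, finsum_strips h (fun ν => X k ^ ((Y l).card - ν.card) * S k ν)]
    congr 1
    apply List.map_congr_left
    intro v hv
    rw [mem_strips l h] at hv
    rw [card_Y h, card_Y hv.1, ih hv.1]

end Pool.Agent.W299.Snp
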