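import Pool.Agent.W299.Snp.Lst

/-!
Validity of the codes of partitions.
-/

set_option autoImplicit false
set_option maxRecDepth 100000

namespace Pool.Agent.W299.Snp

/-- Test for weakly decreasing lists of positive numbers. -/
def goodB : List ℕ → Bool
  | [] => true
  | [a] => Nat.blt 0 a
  | a :: b :: t => Nat.ble b a && goodB (b :: t)

lemma good_of_goodB : ∀ l : List ℕ, goodB l = true → Good l
  | [], _ => good_nil
  | [a], h => by
    rw [good_singleton]
    rw [goodB, Nat.blt_eq] at h
    exact h
  | a :: b :: t, h => by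
    rw [good_cons_cons]
    rw [goodB, Bool.and_eq_true, Nat.ble_eq] at h
    exact ⟨h.1, good_of_goodB _ h.2⟩

/-- Validity of a code of a partition of `n`. -/
def vld (n z : ℕ) : Bool :=
  goodB (dec z) && (Nat.beq (dec z).sum n && (strips (dec z)).all fun v => dec (enc0 v) == v)

theorem vld_all : ((List.range 14).all fun n => (keys.getD n []).all fun z => vld n z) = true := by
  decide +kernel

lemma vld_spec {n z : ℕ} (hn : n < 14) (hz : z ∈ keys.getD n []) :
    Good (dec z) ∧ (dec z).sum = n ∧ ∀ v ∈ strips (dec z), dec (enc0 v) = v := by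
  have h := vld_all
  rw [List.all_eq_true] at h
  have h1 := h n (List.mem_range.2 hn)
  rw [List.all_eq_true] at h1
  have h2 := h1 z hz
  rw [vld, Bool.and_eq_true, Bool.and_eq_true, List.all_eq_true, Nat.beq_eq] at h2
  refine ⟨good_of_goodB _ h2.1, h2.2.1, fun v hv => ?_⟩
  simpa using h2.2.2 v hv

end Pool.Agent.W299.Snp
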