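import Pool.Agent.W299.Snp.Sound
import Pool.Agent.W299.Snp.Vld
import Pool.Agent.W299.Snp.Chk0
import Pool.Agent.W299.Snp.Chk1
import Pool.Agent.W299.Snp.Chk2
import Pool.Agent.W299.Snp.Chk3
import Pool.Agent.W299.Snp.Chk4

/-!
The Schur expansion of the chromatic symmetric polynomials of the blow-ups.
-/

set_option autoImplicit false
set_option maxRecDepth 100000

open MvPolynomial

namespace Pool.Agent.W299.Snp

lemma mem_digs {ks : List ℕ} {z : ℕ} {m : ℕ × ℤ} (h : m ∈ digs ks z) : m.1 ∈ ks := by
  induction ks generalizing z with
  | nil => simp [digs] at h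
  | cons k ks ih =>
    unfold digs at h
    split at h
    · exact List.mem_cons_of_mem _ (ih h)
    · rw [List.mem_cons] at h
      rcases h with rfl | h
      · exact List.mem_cons_self
      · exact List.mem_cons_of_mem _ (ih h)

lemma L_spec {a p q b : ℕ} (hn : a + p + q + b < 14) {m : ℕ × ℤ} (hm : m ∈ L a p q b) :
    Good (dec m.1) ∧ (dec m.1).sum = a + p + q + b ∧
      ∀ v ∈ strips (dec m.1), dec (enc0 v) = v :=
  vld_spec hn (mem_digs hm)

lemma bin_eq : ∀ n < 6, ∀ k < n + 1, bin n k = n.choose k := by decide

lemma ev_mul_congr {g G : ℕ → MvPolynomial ℕ ℤ} {y : MvPolynomial ℕ ℤ} {l : FC}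
    (h : ∀ m ∈ l, y * g m.1 = G m.1) : y * ev g l = ev G l := by
  induction l with
  | nil => simp
  | cons m l ih =>
    rw [ev_cons, ev_cons, mul_add, ih (fun m' hm' => h m' (List.mem_cons_of_mem _ hm')),
      ← h m List.mem_cons_self]
    ring

lemma chk_all {a p q b : ℕ} (ha : a < 5) (hp : p < 3) (hq : q < 3) (hb : b < 6) :
    chk a p q b = true := by
  have key : ∀ a, ((List.range 3).all fun p => (List.range 3).all fun q => (List.range 6).all
      fun b => chk a p q b) = true → chk a p q b = true := by
    intro a h
    rw [List.all_eq_true] at h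
    have h1 := h p (List.mem_range.2 hp)
    rw [List.all_eq_true] at h1
    have h2 := h1 q (List.mem_range.2 hq)
    rw [List.all_eq_true] at h2
    exact h2 b (List.mem_range.2 hb)
  apply key
  interval_cases a
  · exact chk_0
  · exact chk_1
  · exact chk_2
  · exact chk_3
  · exact chk_4

theorem L_zero : L 0 0 0 0 = [(0, 1)] := by decide +kernel

lemma schurL_succ (k : ℕ) (l : List ℕ) : schurL (k + 1) l =
    ((strips l).map fun v => X k ^ (l.sum - v.sum) * schurL k v).sum := rfl

lemma schurL_zero (l : List ℕ) : schurL 0 l = if l = [] then 1 else 0 := rfl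

lemma dec_zero : dec 0 = [] := by decide

attribute [local irreducible] L schurL keys tbl dec bin strips enc0 F

theorem F_eq (k : ℕ) : ∀ a p q b : ℕ, a < 5 → p < 3 → q < 3 → b < 6 →
    F k a p q b = ev (fun z => schurL k (dec z)) (L a p q b) := by
  induction k with
  | zero =>
    intro a p q b ha hp hq hb
    rw [F_zero]
    split_ifs with h
    · have h1 : a = 0 := by omega
      have h2 : p = 0 := by omega
      have h3 : q = 0 := by omega
      have h4 : b = 0 := by omega
      subst h1 h2 h3 h4
      rw [L_zero, ev_cons, ev_nil, schurL_zero, dec_zero]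
      simp
    · symm
      have key : ∀ l : FC, (∀ m ∈ l, dec m.1 ≠ []) → ev (fun z => schurL 0 (dec z)) l = 0 := by
        intro l hl
        induction l with
        | nil => rfl
        | cons m l ih =>
          rw [ev_cons, ih (fun m' hm' => hl m' (List.mem_cons_of_mem _ hm'))]
          rw [schurL_zero, if_neg (hl m List.mem_cons_self)]
          simp
      apply key
      intro m hm h1
      have h2 := (L_spec (by omega) hm).2.1
      rw [h1] at h2
      simp at h2
      omega
  | succ k ih =>
    intro a p q b ha hp hq hb
    set G : ℕ → MvPolynomial ℕ ℤ := fun z => X k ^ (a + p + q + b - (dec z).sum) *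
      schurL k (dec z) with hG
    have h1 : ∀ a' p' q' b' e : ℕ, a' ≤ a → p' ≤ p → q' ≤ q → b' ≤ b →
        a' + p' + q' + b' + e = a + p + q + b →
        X k ^ e * F k a' p' q' b' = ev G (L a' p' q' b') := by
      intro a' p' q' b' e ha' hp' hq' hb' he
      rw [ih a' p' q' b' (by omega) (by omega) (by omega) (by omega)]
      apply ev_mul_congr
      intro m hm
      have h2 := (L_spec (by omega) hm).2.1
      rw [hG]
      simp only [h2]
      congr 2
      omega
    rw [F_succ]
    have h2 := ev_lhs G a p q b
    have h3 : ev G (lhs a p q b) = _ := chk_sound G (chk_all ha hp hq hb)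
    rw [ev_rhs] at h3
    have h4 : ((L a p q b).map fun m => (m.2 : MvPolynomial ℕ ℤ) *
        ((strips (dec m.1)).map fun v => G (enc0 v)).sum).sum =
        ev (fun z => schurL (k + 1) (dec z)) (L a p q b) := by
      unfold ev
      congr 1
      apply List.map_congr_left
      intro m hm
      obtain ⟨_, h5, h6⟩ := L_spec (by omega) hm
      show _ = (m.2 : MvPolynomial ℕ ℤ) * schurL (k + 1) (dec m.1)
      rw [schurL_succ]
      congr 2
      apply List.map_congr_left
      intro v hv
      rw [hG]
      simp only [h6 v hv, h5]
    rw [h4] at h3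
    rw [← h3, h2]
    refine congrArg₂ (· + ·) ?_ ?_
    · refine congrArg₂ (· + ·) ?_ ?_
      · apply Finset.sum_congr rfl
        intro i hi
        apply Finset.sum_congr rfl
        intro j hj
        rw [Finset.mem_range] at hi hj
        rw [h1 (a - i) p (q - j) b (i + j) (by omega) le_rfl (by omega) le_rfl (by omega),
          bin_eq a (by omega) i (by omega), bin_eq q (by omega) j (by omega),
          bin_eq p (by omega) 0 (by omega), bin_eq b (by omega) 0 (by omega)]
        simp
      · apply Finset.sum_congr rfl
        intro i hi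
        apply Finset.sum_congr rfl
        intro j hj
        rw [Finset.mem_range] at hi hj
        rw [h1 (a - i) p q (b - (j + 1)) (i + (j + 1)) (by omega) le_rfl le_rfl (by omega)
            (by omega),
          bin_eq a (by omega) i (by omega), bin_eq b (by omega) (j + 1) (by omega),
          bin_eq p (by omega) 0 (by omega), bin_eq q (by omega) 0 (by omega)]
        simp
    · apply Finset.sum_congr rfl
      intro i hi
      apply Finset.sum_congr rfl
      intro j hj
      rw [Finset.mem_range] at hi hj
      rw [h1 a (p - (i + 1)) q (b - j) ((i + 1) + j) le_rfl (by omega) le_rfl (by omega)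
          (by omega),
        bin_eq p (by omega) (i + 1) (by omega), bin_eq b (by omega) j (by omega),
        bin_eq a (by omega) 0 (by omega), bin_eq q (by omega) 0 (by omega)]
      simp

end Pool.Agent.W299.Snp
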