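import Pool.Agent.W299.Snp.Lst
import Pool.Agent.W299.Snp.Col

/-!
Soundness of the finite check.
-/

set_option autoImplicit false

open MvPolynomial

namespace Pool.Agent.W299.Snp

/-- Evaluation of a formal combination. -/
noncomputable def ev (g : ℕ → MvPolynomial ℕ ℤ) (l : FC) : MvPolynomial ℕ ℤ :=
  (l.map fun m => (m.2 : MvPolynomial ℕ ℤ) * g m.1).sum

variable (g : ℕ → MvPolynomial ℕ ℤ)

@[simp] lemma ev_nil : ev g [] = 0 := rfl

@[simp] lemma ev_cons (m : ℕ × ℤ) (l : FC) :
    ev g (m :: l) = (m.2 : MvPolynomial ℕ ℤ) * g m.1 + ev g l := by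
  simp [ev]

lemma ev_maddAux (i : ℕ) (x : ℤ) (f : FC → FC) (a : FC)
    (hf : ∀ b, ev g (f b) = ev g a + ev g b) (b : FC) :
    ev g (maddAux i x f a b) = ev g ((i, x) :: a) + ev g b := by
  induction b with
  | nil => simp [maddAux]
  | cons m b ih =>
    obtain ⟨j, y⟩ := m
    unfold maddAux
    rcases h1 : Nat.blt i j with _ | _
    · rcases h2 : Nat.blt j i with _ | _
      · have h3 : i = j := by
          have h4 : ¬ i < j := by
            intro h
            rw [← Nat.blt_eq] at h
            rw [h] at h1
            exact Bool.noConfusion h1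
          have h5 : ¬ j < i := by
            intro h
            rw [← Nat.blt_eq] at h
            rw [h] at h2
            exact Bool.noConfusion h2
          omega
        subst h3
        simp only [ev_cons, hf]
        push_cast
        ring
      · simp only [ev_cons] at ih ⊢
        rw [ih]
        ring
    · simp only [ev_cons, hf]
      ring

lemma ev_madd (a b : FC) : ev g (madd a b) = ev g a + ev g b := by
  induction a generalizing b with
  | nil => simp [madd]
  | cons m a ih =>
    obtain ⟨i, x⟩ := m
    unfold madd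
    exact ev_maddAux g i x (madd a) a ih b

lemma ev_smul (c : ℤ) (a : FC) : ev g (smul c a) = (c : MvPolynomial ℕ ℤ) * ev g a := by
  induction a with
  | nil => simp [smul]
  | cons m a ih =>
    have : smul c (m :: a) = (m.1, c * m.2) :: smul c a := rfl
    rw [this, ev_cons, ev_cons, ih]
    push_cast
    ring

lemma ev_pairUp : ∀ l : List FC, ((pairUp l).map (ev g)).sum = (l.map (ev g)).sum
  | [] => rfl
  | [a] => rfl
  | a :: b :: t => by
    rw [pairUp, List.map_cons, List.sum_cons, ev_madd, ev_pairUp t]
    simp [add_assoc]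

lemma ev_addAll0 (n : ℕ) (l : List FC) : ev g (addAll0 n l) = (l.map (ev g)).sum := by
  induction n generalizing l with
  | zero =>
    rw [addAll0]
    induction l with
    | nil => rfl
    | cons a l ih =>
      rw [List.foldr_cons, ev_madd, ih]
      simp
  | succ n ih =>
    rw [addAll0, ih, ev_pairUp]

lemma ev_addAll (l : List FC) : ev g (addAll l) = (l.map (ev g)).sum := ev_addAll0 g 8 l

lemma ev_zero (l : FC) (h : (l.all fun x => x.2 == 0) = true) : ev g l = 0 := by
  induction l with
  | nil => rfl
  | cons m l ih =>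
    rw [List.all_cons, Bool.and_eq_true] at h
    have h1 : m.2 = 0 := by simpa using h.1
    rw [ev_cons, ih h.2, h1]
    simp

lemma ev_lhs (a p q b : ℕ) : ev g (lhs a p q b) =
    (∑ i ∈ Finset.range (a + 1), ∑ j ∈ Finset.range (q + 1),
      ((bin a i * bin p 0 * bin q j * bin b 0 : ℕ) : MvPolynomial ℕ ℤ) *
        ev g (L (a - i) (p - 0) (q - j) (b - 0))) +
    (∑ i ∈ Finset.range (a + 1), ∑ j ∈ Finset.range b,
      ((bin a i * bin p 0 * bin q 0 * bin b (j + 1) : ℕ) : MvPolynomial ℕ ℤ) *
        ev g (L (a - i) (p - 0) (q - 0) (b - (j + 1)))) +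
    (∑ i ∈ Finset.range p, ∑ j ∈ Finset.range (b + 1),
      ((bin a 0 * bin p (i + 1) * bin q 0 * bin b j : ℕ) : MvPolynomial ℕ ℤ) *
        ev g (L (a - 0) (p - (i + 1)) (q - 0) (b - j))) := by
  have key0 : ∀ (n : ℕ) (f : ℕ → MvPolynomial ℕ ℤ),
      ((List.range n).map f).sum = ∑ i ∈ Finset.range n, f i := by
    intro n f
    induction n with
    | zero => rfl
    | succ n ih => rw [List.range_succ, List.map_append, List.sum_append, ih,
        Finset.sum_range_succ]; simp
  have key1 : ∀ (l : List ℕ) (f : ℕ → List FC),
      ((l.flatMap f).map (ev g)).sum = (l.map fun i => ((f i).map (ev g)).sum).sum := by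
    intro l f
    induction l with
    | nil => rfl
    | cons a l ih => rw [List.flatMap_cons, List.map_append, List.sum_append, ih, List.map_cons,
        List.sum_cons]
  have key : ∀ (n m : ℕ) (f : ℕ → ℕ → FC),
      (((List.range n).flatMap fun i => (List.range m).map fun j => f i j).map (ev g)).sum =
        ∑ i ∈ Finset.range n, ∑ j ∈ Finset.range m, ev g (f i j) := by
    intro n m f
    rw [key1, key0]
    apply Finset.sum_congr rfl
    intro i _
    rw [List.map_map, ← key0]
    rfl
  rw [lhs, ev_addAll, List.map_append, List.map_append, List.sum_append, List.sum_append,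
    key, key, key]
  simp only [term, ev_smul, Int.cast_natCast]

lemma ev_rhs (a p q b : ℕ) : ev g (rhs a p q b) =
    ((L a p q b).map fun m => (m.2 : MvPolynomial ℕ ℤ) *
      ((strips (dec m.1)).map fun v => g (enc0 v)).sum).sum := by
  rw [rhs, ev_addAll, List.map_map]
  congr 1
  apply List.map_congr_left
  intro m _
  show ev g (List.map (fun v => (enc0 v, m.2)) (strips (dec m.1))) = _
  generalize strips (dec m.1) = s
  induction s with
  | nil => simp
  | cons v s ih =>
    rw [List.map_cons, ev_cons, ih, List.map_cons, List.sum_cons]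
    ring

lemma chk_sound {a p q b : ℕ} (h : chk a p q b = true) : ev g (lhs a p q b) = ev g (rhs a p q b) := by
  have h1 := ev_zero g _ h
  rw [ev_madd, ev_smul] at h1
  push_cast at h1
  linear_combination h1

end Pool.Agent.W299.Snp
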