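import Mathlib

/-!
Schur polynomials in `k + 1` variables in terms of Schur polynomials in `k` variables, in terms of
Mathlib's semistandard Young tableaux.
-/

set_option autoImplicit false

open MvPolynomial

namespace Pool.Agent.W299.Snp

/-- The semistandard tableaux of shape `μ` with entries `< k`. -/
abbrev Tab (k : ℕ) (μ : YoungDiagram) : Type :=
  {T : SemistandardYoungTableau μ // ∀ p ∈ μ.cells, T p.1 p.2 < k}

/-- The Schur polynomial. -/
noncomputable def S (k : ℕ) (μ : YoungDiagram) : MvPolynomial ℕ ℤ :=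
  ∑ᶠ T : Tab k μ, ∏ p ∈ μ.cells, (X (T.1 p.1 p.2) : MvPolynomial ℕ ℤ)

/-- `μ / ν` is a horizontal strip. -/
def IsStrip (μ ν : YoungDiagram) : Prop :=
  ∀ i, μ.rowLen (i + 1) ≤ ν.rowLen i ∧ ν.rowLen i ≤ μ.rowLen i

lemma IsStrip.le {μ ν : YoungDiagram} (h : IsStrip μ ν) : ν ≤ μ := by
  intro c hc
  rcases c with ⟨i, j⟩
  have : (i, j) ∈ ν := hc
  rw [YoungDiagram.mem_iff_lt_rowLen] at this
  show (i, j) ∈ μ
  rw [YoungDiagram.mem_iff_lt_rowLen]
  exact lt_of_lt_of_le this (h i).2

lemma IsStrip.mem {μ ν : YoungDiagram} (h : IsStrip μ ν) {i j : ℕ} (hc : (i + 1, j) ∈ μ) :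
    (i, j) ∈ ν := by
  rw [YoungDiagram.mem_iff_lt_rowLen] at hc ⊢
  exact lt_of_lt_of_le hc (h i).1

instance finite_tab (k : ℕ) (μ : YoungDiagram) : Finite (Tab k μ) := by
  let F : Tab k μ → (μ.cells → Fin k) := fun T p => ⟨T.1 p.1.1 p.1.2, T.2 p.1 p.2⟩
  apply Finite.of_injective F
  intro T T' h
  apply Subtype.ext
  apply SemistandardYoungTableau.ext
  intro i j
  by_cases hc : (i, j) ∈ μ
  · have := congrFun h ⟨(i, j), hc⟩
    simpa [F] using this
  · rw [T.1.zeros hc, T'.1.zeros hc]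

instance finite_strip (μ : YoungDiagram) : Finite {ν // IsStrip μ ν} := by
  let F : {ν // IsStrip μ ν} → μ.cells.powerset := fun ν => ⟨ν.1.cells, by
    rw [Finset.mem_powerset]
    exact YoungDiagram.cells_subset_iff.2 ν.2.le⟩
  apply Finite.of_injective F
  intro ν ν' h
  apply Subtype.ext
  have : ν.1.cells = ν'.1.cells := congrArg Subtype.val h
  exact YoungDiagram.ext this

/-- The shape of the cells with entries `< k` of a tableau. -/
def lower {μ : YoungDiagram} (k : ℕ) (T : SemistandardYoungTableau μ) : YoungDiagram where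
  cells := μ.cells.filter fun p => T p.1 p.2 < k
  isLowerSet := by
    intro a b hab ha
    simp only [Finset.coe_filter, Set.mem_ofPred_eq, YoungDiagram.mem_cells] at ha ⊢
    obtain ⟨ha1, ha2⟩ := ha
    have hb : b ∈ μ := by
      rcases a with ⟨a1, a2⟩
      rcases b with ⟨b1, b2⟩
      exact μ.up_left_mem hab.1 hab.2 ha1
    refine ⟨hb, lt_of_le_of_lt ?_ ha2⟩
    rcases a with ⟨a1, a2⟩
    rcases b with ⟨b1, b2⟩
    have h1 : (b1, a2) ∈ μ := μ.up_left_mem hab.1 le_rfl ha1
    calc T b1 b2 ≤ T b1 a2 := T.row_weak_of_le hab.2 h1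
      _ ≤ T a1 a2 := T.col_weak hab.1 ha1

lemma mem_lower {μ : YoungDiagram} (k : ℕ) (T : SemistandardYoungTableau μ) (i j : ℕ) :
    (i, j) ∈ lower k T ↔ (i, j) ∈ μ ∧ T i j < k := by
  rw [← YoungDiagram.mem_cells]
  simp [lower]

lemma isStrip_of {μ ν : YoungDiagram} (h1 : ν ≤ μ) (h2 : ∀ i j, (i + 1, j) ∈ μ → (i, j) ∈ ν) :
    IsStrip μ ν := by
  intro i
  constructor
  · by_contra h
    rw [not_le] at h
    have := h2 i _ (YoungDiagram.mem_iff_lt_rowLen.2 h)
    rw [YoungDiagram.mem_iff_lt_rowLen] at this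
    exact lt_irrefl _ this
  · by_contra h
    rw [not_le] at h
    have := h1 (YoungDiagram.mem_iff_lt_rowLen.2 h)
    have h3 : (i, μ.rowLen i) ∈ μ := this
    rw [YoungDiagram.mem_iff_lt_rowLen] at h3
    exact lt_irrefl _ h3

lemma isStrip_lower {μ : YoungDiagram} (k : ℕ) (T : Tab (k + 1) μ) : IsStrip μ (lower k T.1) := by
  apply isStrip_of
  · intro c hc
    rcases c with ⟨i, j⟩
    exact ((mem_lower k T.1 i j).1 hc).1
  · intro i j h
    rw [mem_lower]
    have h1 := T.1.col_strict (Nat.lt_add_one i) h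
    have h2 : T.1 (i + 1) j < k + 1 := T.2 (i + 1, j) h
    exact ⟨μ.up_left_mem (Nat.le_succ i) le_rfl h, by omega⟩

/-- The restriction of a tableau to the cells with small entries. -/
def restr {μ : YoungDiagram} (k : ℕ) (T : SemistandardYoungTableau μ) :
    SemistandardYoungTableau (lower k T) where
  entry i j := if (i, j) ∈ lower k T then T i j else 0
  row_weak' := by
    intro i j1 j2 hj h
    have h1 : (i, j1) ∈ lower k T := (lower k T).up_left_mem le_rfl hj.le h
    rw [if_pos h, if_pos h1]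
    exact T.row_weak hj ((mem_lower k T _ _).1 h).1
  col_strict' := by
    intro i1 i2 j hi h
    have h1 : (i1, j) ∈ lower k T := (lower k T).up_left_mem hi.le le_rfl h
    rw [if_pos h, if_pos h1]
    exact T.col_strict hi ((mem_lower k T _ _).1 h).1
  zeros' := by
    intro i j h
    rw [if_neg h]

lemma restr_apply {μ : YoungDiagram} (k : ℕ) (T : SemistandardYoungTableau μ) (i j : ℕ) :
    restr k T i j = if (i, j) ∈ lower k T then T i j else 0 := rfl

/-- The extension of a tableau by entries `k`. -/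
def extend {μ ν : YoungDiagram} (k : ℕ) (h : IsStrip μ ν) (T : SemistandardYoungTableau ν)
    (hT : ∀ p ∈ ν.cells, T p.1 p.2 < k) : SemistandardYoungTableau μ where
  entry i j := if (i, j) ∈ ν then T i j else if (i, j) ∈ μ then k else 0
  row_weak' := by
    intro i j1 j2 hj hc
    by_cases h2 : (i, j2) ∈ ν
    · have h1 : (i, j1) ∈ ν := ν.up_left_mem le_rfl hj.le h2
      rw [if_pos h2, if_pos h1]
      exact T.row_weak hj h2
    · rw [if_neg h2, if_pos hc]
      by_cases h1 : (i, j1) ∈ ν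
      · rw [if_pos h1]
        exact (hT (i, j1) h1).le
      · rw [if_neg h1]
        split_ifs <;> omega
  col_strict' := by
    intro i1 i2 j hi hc
    by_cases h2 : (i2, j) ∈ ν
    · have h1 : (i1, j) ∈ ν := ν.up_left_mem hi.le le_rfl h2
      rw [if_pos h2, if_pos h1]
      exact T.col_strict hi h2
    · rw [if_neg h2, if_pos hc]
      have h1 : (i1, j) ∈ ν := h.mem (μ.up_left_mem (Nat.succ_le_of_lt hi) le_rfl hc)
      rw [if_pos h1]
      exact hT (i1, j) h1
  zeros' := by
    intro i j hc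
    have h1 : (i, j) ∉ ν := fun h' => hc (h.le h')
    rw [if_neg h1, if_neg hc]

lemma extend_apply {μ ν : YoungDiagram} (k : ℕ) (h : IsStrip μ ν) (T : SemistandardYoungTableau ν)
    (hT : ∀ p ∈ ν.cells, T p.1 p.2 < k) (i j : ℕ) :
    extend k h T hT i j = if (i, j) ∈ ν then T i j else if (i, j) ∈ μ then k else 0 := rfl

lemma lower_extend {μ ν : YoungDiagram} (k : ℕ) (h : IsStrip μ ν) (T : SemistandardYoungTableau ν)
    (hT : ∀ p ∈ ν.cells, T p.1 p.2 < k) : lower k (extend k h T hT) = ν := by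
  apply SetLike.ext
  rintro ⟨i, j⟩
  rw [mem_lower, extend_apply]
  constructor
  · rintro ⟨h1, h2⟩
    by_contra h3
    rw [if_neg h3, if_pos h1] at h2
    omega
  · intro h1
    rw [if_pos h1]
    exact ⟨h.le h1, hT (i, j) h1⟩

/-- The recursive description of the tableaux with entries `< k + 1`. -/
noncomputable def tabEquiv (k : ℕ) (μ : YoungDiagram) :
    Tab (k + 1) μ ≃ Σ ν : {ν // IsStrip μ ν}, Tab k ν.1 where
  toFun T := ⟨⟨lower k T.1, isStrip_lower k T⟩, ⟨restr k T.1, by
    rintro ⟨i, j⟩ hp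
    have hp' : (i, j) ∈ lower k T.1 := hp
    rw [restr_apply, if_pos hp']
    exact ((mem_lower k T.1 i j).1 hp').2⟩⟩
  invFun x := ⟨extend k x.1.2 x.2.1 x.2.2, by
    rintro ⟨i, j⟩ hp
    have hp' : (i, j) ∈ μ := hp
    rw [extend_apply]
    split_ifs with h1
    · have : x.2.1 i j < k := x.2.2 (i, j) h1
      show x.2.1 i j < k + 1
      omega
    · exact Nat.lt_add_one k⟩
  left_inv := by
    intro T
    apply Subtype.ext
    apply SemistandardYoungTableau.ext
    intro i j
    refine (extend_apply k (isStrip_lower k T) (restr k T.1) ?_ i j).trans ?_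
    · rintro ⟨i, j⟩ hp
      have hp' : (i, j) ∈ lower k T.1 := hp
      rw [restr_apply, if_pos hp']
      exact ((mem_lower k T.1 i j).1 hp').2
    by_cases h1 : (i, j) ∈ lower k T.1
    · rw [if_pos h1, restr_apply, if_pos h1]
    · rw [if_neg h1]
      by_cases h2 : (i, j) ∈ μ
      · rw [if_pos h2]
        have h3 : T.1 i j < k + 1 := T.2 (i, j) h2
        rw [mem_lower] at h1
        have : ¬ T.1 i j < k := fun h => h1 ⟨h2, h⟩
        omega
      · rw [if_neg h2, T.1.zeros h2]
  right_inv := by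
    rintro ⟨⟨ν, hν⟩, ⟨T, hT⟩⟩
    have key : ∀ (ν' : YoungDiagram) (h : ν' = ν) (h' : IsStrip μ ν') (T' : Tab k ν'),
        (∀ i j, T'.1 i j = T i j) →
        (⟨⟨ν', h'⟩, T'⟩ : Σ ν : {ν // IsStrip μ ν}, Tab k ν.1) = ⟨⟨ν, hν⟩, ⟨T, hT⟩⟩ := by
      rintro ν' rfl h' T' hh
      congr 1
      apply Subtype.ext
      exact SemistandardYoungTableau.ext hh
    apply key _ (lower_extend k hν T hT)
    intro i j
    rw [restr_apply, lower_extend]
    by_cases h1 : (i, j) ∈ ν
    · rw [if_pos h1, extend_apply, if_pos h1]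
    · rw [if_neg h1, T.zeros h1]

lemma prod_extend {μ ν : YoungDiagram} (k : ℕ) (h : IsStrip μ ν) (T : SemistandardYoungTableau ν)
    (hT : ∀ p ∈ ν.cells, T p.1 p.2 < k) :
    ∏ p ∈ μ.cells, (X (extend k h T hT p.1 p.2) : MvPolynomial ℕ ℤ) =
      X k ^ (μ.card - ν.card) * ∏ p ∈ ν.cells, (X (T p.1 p.2) : MvPolynomial ℕ ℤ) := by
  have hsub : ν.cells ⊆ μ.cells := YoungDiagram.cells_subset_iff.2 h.le
  rw [← Finset.prod_sdiff hsub]
  congr 1
  · rw [Finset.prod_congr rfl (g := fun _ => (X k : MvPolynomial ℕ ℤ))]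
    · rw [Finset.prod_const, Finset.card_sdiff_of_subset hsub]
    · rintro ⟨i, j⟩ hp
      rw [Finset.mem_sdiff] at hp
      have h1 : (i, j) ∉ ν := hp.2
      have h2 : (i, j) ∈ μ := hp.1
      rw [extend_apply, if_neg h1, if_pos h2]
  · apply Finset.prod_congr rfl
    rintro ⟨i, j⟩ hp
    have h1 : (i, j) ∈ ν := hp
    rw [extend_apply, if_pos h1]

theorem S_succ (k : ℕ) (μ : YoungDiagram) :
    S (k + 1) μ = ∑ᶠ ν : {ν // IsStrip μ ν}, X k ^ (μ.card - ν.1.card) * S k ν.1 := by
  classical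
  have : Fintype {ν // IsStrip μ ν} := Fintype.ofFinite _
  have : ∀ k μ, Fintype (Tab k μ) := fun k μ => Fintype.ofFinite _
  unfold S
  rw [finsum_eq_sum_of_fintype, finsum_eq_sum_of_fintype]
  rw [← Equiv.sum_comp (tabEquiv k μ).symm, Fintype.sum_sigma]
  apply Finset.sum_congr rfl
  intro ν _
  rw [finsum_eq_sum_of_fintype, Finset.mul_sum]
  apply Finset.sum_congr rfl
  intro T _
  exact prod_extend k ν.2 T.1 T.2

theorem S_zero_bot : S 0 ⊥ = 1 := by
  classical
  have : Fintype (Tab 0 ⊥) := Fintype.ofFinite _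
  have : Unique (Tab 0 ⊥) := by
    refine ⟨⟨⟨default, ?_⟩⟩, ?_⟩
    · intro p hp
      exact absurd hp (by simp)
    · intro T
      apply Subtype.ext
      apply SemistandardYoungTableau.ext
      intro i j
      rw [T.1.zeros (YoungDiagram.notMem_bot _)]
      exact ((default : SemistandardYoungTableau ⊥).zeros (YoungDiagram.notMem_bot _)).symm
  unfold S
  rw [finsum_eq_sum_of_fintype, Fintype.sum_unique]
  simp

theorem S_zero_of_ne {μ : YoungDiagram} (h : μ ≠ ⊥) : S 0 μ = 0 := by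
  classical
  have : Fintype (Tab 0 μ) := Fintype.ofFinite _
  have : IsEmpty (Tab 0 μ) := by
    constructor
    intro T
    apply h
    apply SetLike.ext
    intro p
    constructor
    · intro hp
      exact absurd (T.2 p hp) (Nat.not_lt_zero _)
    · intro hp
      exact absurd hp (YoungDiagram.notMem_bot _)
  unfold S
  rw [finsum_eq_sum_of_fintype]
  exact Fintype.sum_empty _

end Pool.Agent.W299.Snp
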